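import Mathlib
import Pool.Agent.H.MP_61ce55_lc.A

namespace Pool.Agent.Results.MP_61ce55_lc.No
open Finset Pool.Agent.H.MP_61ce55_lc

/-- Load vector of the schedule `σ` (job `j` runs on machine `σ j`). -/
def load {d n : ℕ} (p : Fin d → Fin n → ℝ) (σ : Fin n → Fin d) : Fin d → ℝ :=
  fun i => ∑ j, if σ j = i then p i j else 0

/-- The coordinates of `x` sorted in non-increasing order (`Tuple.sort` sorts increasingly). -/
noncomputable def desc {d : ℕ} (x : Fin d → ℝ) (k : Fin d) : ℝ := x (Tuple.sort x k.rev)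

/-- The ordered norm with weights `w`. -/
noncomputable def ordNorm {d : ℕ} (w x : Fin d → ℝ) : ℝ := ∑ k, w k * desc x k

/-- `X` is a set of load vectors which is an `α`-approximate portfolio for the ordered norms. -/
def IsPortfolio {d n : ℕ} (α : ℝ) (p : Fin d → Fin n → ℝ) (X : Finset (Fin d → ℝ)) : Prop :=
  (∀ x ∈ X, ∃ σ, x = load p σ) ∧
    ∀ w : Fin d → ℝ, w ≠ 0 → Antitone w → (∀ k, 0 ≤ w k) →
      ∃ x ∈ X, ∀ σ, ordNorm w x ≤ α * ordNorm w (load p σ)

theorem sum_load {d n : ℕ} (p : Fin d → Fin n → ℝ) (σ : Fin n → Fin d) (G : Finset (Fin d)) :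
    ∑ i ∈ G, load p σ i = ∑ j, if σ j ∈ G then p (σ j) j else 0 := by
  unfold load
  rw [sum_comm]
  apply sum_congr rfl
  intro j _
  rw [sum_ite_eq]

theorem ord_eq {d R : ℕ} (k : Fin R → ℕ) (a : Fin R → ℝ) (x : Fin d → ℝ) :
    ordNorm (fun l : Fin d => ∑ r, if l.val < k r then a r else 0) x = ∑ r, a r * top (k r) x := by
  unfold ordNorm top desc
  simp only [sum_mul, mul_sum]
  rw [sum_comm]
  apply sum_congr rfl; intro r _
  apply sum_congr rfl; intro l _
  split_ifs <;> simp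

theorem core (α : ℝ) (hα : 1 ≤ α) (t A : ℕ) (ht : 1 ≤ t) (hA : 32 * α * t ≤ A) {d n : ℕ}
    (e : Mc (4 * t) A ≃ Fin d) (e' : Jb (4 * t) A ≃ Fin n) (X : Finset (Fin d → ℝ))
    (hX : IsPortfolio α (fun i j => pt (4 * t) A (e.symm i) (e'.symm j)) X) :
    (3 / 2 : ℝ) ^ t ≤ X.card := by
  classical
  set p : Fin d → Fin n → ℝ := fun i j => pt (4 * t) A (e.symm i) (e'.symm j) with hp
  have ht' : (1 : ℝ) ≤ t := by exact_mod_cast ht
  have hA' : (1 : ℝ) ≤ A := by nlinarith
  have hA1 : 1 ≤ A := by exact_mod_cast hA'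
  have hp0 : ∀ σ i, 0 ≤ load p σ i := fun σ i =>
    sum_nonneg (fun j _ => by split_ifs; exacts [pt_nonneg _ _ _ _, le_rfl])
  have key : ∀ (σ : Fin n → Fin d) (G : Finset (Fin d)), ∑ i ∈ G, load p σ i =
      ∑ j : Jb (4 * t) A, if e.symm (σ (e' j)) ∈ G.map e.symm.toEmbedding then
        pt (4 * t) A (e.symm (σ (e' j))) j else 0 := by
    intro σ G
    rw [sum_load, ← e'.sum_comp]
    apply sum_congr rfl; intro j _
    simp [hp]
  have low : ∀ x : Fin d → ℝ, ∀ r : Fin (4 * t), ∃ b : Bool, x ∈ X →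
      (A : ℝ) ^ (sc r b + 1) / 2 ≤ top (A ^ (2 * sc r b)) x := by
    intro x r
    by_cases hx : x ∈ X
    · obtain ⟨σ, rfl⟩ := hX.1 x hx
      obtain ⟨b, G, hG, h⟩ := lower (4 * t) A hA1 (fun j => e.symm (σ (e' j))) r
      refine ⟨b, fun _ => h.trans (le_trans (le_of_eq ?_)
        (le_top _ _ (hp0 σ) (G.map e.toEmbedding) (by simpa using hG)))⟩
      rw [key]
      apply sum_congr rfl; intro j _
      simp
    · exact ⟨true, fun h => absurd h hx⟩
  choose c hc using low
  apply count X t c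
  intro S
  have hd : 0 < d := by
    have : Nonempty (Mc (4 * t) A) := ⟨(⟨0, by omega⟩, true, ⟨0, Nat.pow_pos hA1⟩)⟩
    exact Fin.pos (e this.some)
  have hw0 : ∀ (l : Fin d) (r : Fin (4 * t)), (0 : ℝ) ≤
      if l.val < A ^ (2 * sc r (S r)) then ((A : ℝ) ^ sc r (S r))⁻¹ else 0 := by
    intro l r; split_ifs <;> positivity
  obtain ⟨x, hx, h⟩ := hX.2 (fun l : Fin d => ∑ r, if l.val < A ^ (2 * sc r (S r)) then
      ((A : ℝ) ^ sc r (S r))⁻¹ else 0) (by
      intro h0
      have h1 := congrFun h0 ⟨0, hd⟩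
      have h2 := (sum_eq_zero_iff_of_nonneg (fun r _ => hw0 ⟨0, hd⟩ r)).mp h1 ⟨0, by omega⟩
        (mem_univ _)
      rw [if_pos (Nat.pow_pos hA1)] at h2
      exact absurd h2 (by positivity)) (by
      intro a b hab
      apply sum_le_sum
      intro r _
      by_cases hb : b.val < A ^ (2 * sc r (S r))
      · rw [if_pos hb, if_pos (lt_of_le_of_lt (Fin.le_def.mp hab) hb)]
      · rw [if_neg hb]; exact hw0 a r) (fun l => sum_nonneg (fun r _ => hw0 l r))
  refine ⟨x, hx, ?_⟩
  have h1 := h (fun j => e (sched (4 * t) A (fun r => !S r) (e'.symm j)))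
  rw [ord_eq, ord_eq] at h1
  have up : ∀ r : Fin (4 * t), ((A : ℝ) ^ sc r (S r))⁻¹ * top (A ^ (2 * sc r (S r)))
      (load p (fun j => e (sched (4 * t) A (fun r => !S r) (e'.symm j)))) ≤ (4 * t : ℕ) := by
    intro r
    obtain ⟨G, hG, hG'⟩ := top_eq (A ^ (2 * sc r (S r)))
      (load p (fun j => e (sched (4 * t) A (fun r => !S r) (e'.symm j))))
    rw [hG', key]
    simp only [Equiv.symm_apply_apply]
    have := upper (4 * t) A hA1 (fun r => !S r) (sc r (S r)) (by
      intro r' h'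
      unfold sc at h'
      have a1 := (S r).toNat_le
      have a2 := (!S r').toNat_le
      have : r' = r := Fin.ext (by omega)
      subst this
      cases hS : S r' <;> simp [hS] at h') (G.map e.symm.toEmbedding) (by simpa using hG)
    rw [inv_mul_le_iff₀ (by positivity)]
    exact this.trans (le_of_eq (mul_comm _ _))
  have up2 := sum_le_sum (fun r (_ : r ∈ (univ : Finset (Fin (4 * t)))) => up r)
  rw [sum_const, card_univ, Fintype.card_fin, nsmul_eq_mul] at up2
  have lo : ∀ r : Fin (4 * t), (if S r = c x r then (A : ℝ) / 2 else 0) ≤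
      ((A : ℝ) ^ sc r (S r))⁻¹ * top (A ^ (2 * sc r (S r))) x := by
    intro r
    split_ifs with hr
    · rw [le_inv_mul_iff₀ (by positivity), hr]
      have := hc x r hx
      rw [pow_succ] at this
      linarith
    · obtain ⟨σ, rfl⟩ := hX.1 x hx
      refine mul_nonneg (by positivity) ?_
      simpa using le_top (A ^ (2 * sc r (S r))) _ (hp0 σ) ∅ (by simp)
  have lo2 := sum_le_sum (fun r (_ : r ∈ (univ : Finset (Fin (4 * t)))) => lo r)
  rw [← sum_filter, sum_const, nsmul_eq_mul] at lo2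
  have h2 := lo2.trans (h1.trans (mul_le_mul_of_nonneg_left up2 (by linarith)))
  push_cast at h2
  have h3 : ((univ.filter (fun r => S r = c x r)).card : ℝ) ≤ t := by
    by_contra hh
    push Not at hh
    have : (t : ℝ) * (A / 2) < ((univ.filter (fun r => S r = c x r)).card : ℝ) * (A / 2) :=
      mul_lt_mul_of_pos_right hh (by linarith)
    nlinarith
  exact_mod_cast h3

theorem result (α C : ℝ) (hα : 1 ≤ α) (hC : 0 < C) :
    ∃ d n : ℕ, 2 ≤ d ∧ 1 ≤ n ∧ ∃ p : Fin d → Fin n → ℝ, (∀ i j, 0 ≤ p i j) ∧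
      ∀ X : Finset (Fin d → ℝ), IsPortfolio α p X → C * Real.log d < X.card := by
  obtain ⟨a, ha⟩ := exists_nat_ge α
  have ha1 : (1 : ℝ) ≤ a := hα.trans ha
  have hlim := tendsto_pow_const_div_const_pow_of_one_lt 2 (r := 3 / 2) (by norm_num)
  have hev := (hlim.eventually (gt_mem_nhds (show (0 : ℝ) < 1 / (600 * a * C) by positivity))).and
    (Filter.eventually_ge_atTop 1)
  obtain ⟨t, ht1, ht⟩ := hev.exists
  have ht' : (1 : ℝ) ≤ t := by exact_mod_cast ht
  have ha1' : 1 ≤ a := by exact_mod_cast ha1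
  have hA1 : 1 ≤ 32 * a * t := by nlinarith [Nat.mul_le_mul ha1' ht]
  have hK : 1 ≤ (32 * a * t) ^ (4 * (4 * t)) := Nat.pow_pos hA1
  have hd : Fintype.card (Mc (4 * t) (32 * a * t)) = 8 * t * (32 * a * t) ^ (4 * (4 * t)) := by
    simp only [Fintype.card_prod, Fintype.card_fin, Fintype.card_bool]; ring
  have hn : Fintype.card (Jb (4 * t) (32 * a * t)) = 4 * t * (32 * a * t) ^ (4 * (4 * t)) := by
    simp only [Fintype.card_prod, Fintype.card_fin]
  refine ⟨Fintype.card (Mc (4 * t) (32 * a * t)), Fintype.card (Jb (4 * t) (32 * a * t)),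
    by rw [hd]; nlinarith, by rw [hn]; nlinarith,
    fun i j => pt (4 * t) (32 * a * t) ((Fintype.equivFin _).symm i) ((Fintype.equivFin _).symm j),
    fun i j => pt_nonneg _ _ _ _, fun X hX => ?_⟩
  have h := core α hα t (32 * a * t) ht (by push_cast; nlinarith) _ _ X hX
  refine lt_of_lt_of_le ?_ h
  rw [hd]
  push_cast
  have hA0 : (0 : ℝ) < 32 * a * t := by positivity
  rw [Real.log_mul (by positivity) (by positivity), Real.log_pow]
  have l1 : Real.log (8 * t) ≤ 8 * t := (Real.log_le_sub_one_of_pos (by positivity)).trans (by linarith)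
  have l2 : Real.log (32 * a * t) ≤ 32 * a * t :=
    (Real.log_le_sub_one_of_pos hA0).trans (by linarith)
  rw [div_lt_div_iff₀ (by positivity) (by positivity)] at ht1
  push_cast
  have l3 : (4 * (4 * (t : ℝ))) * Real.log (32 * a * t) ≤ (4 * (4 * t)) * (32 * a * t) :=
    mul_le_mul_of_nonneg_left l2 (by positivity)
  have l4 : (8 * t : ℝ) ≤ 8 * a * t ^ 2 := by nlinarith [mul_le_mul ha1 ht' zero_le_one (by linarith)]
  have l5 : Real.log (8 * t) + (4 * (4 * (t : ℝ))) * Real.log (32 * a * t) ≤ 600 * a * t ^ 2 := by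
    nlinarith [mul_pos (show (0 : ℝ) < a by linarith) (show (0 : ℝ) < t ^ 2 by positivity)]
  nlinarith [mul_le_mul_of_nonneg_left l5 hC.le]

end Pool.Agent.Results.MP_61ce55_lc.No
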